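import Pool.Agent.MP_dd175f_co.Pair.Main

/-! The pair scheme with the profile `θ j = √(λ / (j + D))`. -/

set_option autoImplicit false

namespace Pool.Agent.MP_dd175f_co.Pair

open Finset

variable {V : Type} [Fintype V]

lemma sum_sqrt (k : ℕ) : 2 / 3 * k * √(k : ℝ) - √(k : ℝ) ≤ ∑ j ∈ range k, √(j : ℝ) := by
  induction k with
  | zero => simp
  | succ k ih =>
    rw [sum_range_succ]
    have k0 : (0 : ℝ) ≤ k := Nat.cast_nonneg k
    have a0 := Real.sqrt_nonneg (k : ℝ)
    have a2 := Real.mul_self_sqrt k0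
    have b2 := Real.mul_self_sqrt (by linarith : (0 : ℝ) ≤ k + 1)
    have ab : √(k : ℝ) ≤ √(k + 1 : ℝ) := Real.sqrt_le_sqrt (by linarith)
    push_cast
    set a := √(k : ℝ)
    set b := √(k + 1 : ℝ)
    have b1 : 0 < b := Real.sqrt_pos.2 (by linarith)
    have key : 2 / 3 * ((k + 1) * b - k * a) ≤ b := by
      refine le_of_mul_le_mul_right ?_ (by linarith : 0 < a + b)
      have e : ((k + 1) * b - k * a) * (a + b) = a * a + a * b + b * b := by
        linear_combination k * b2 - (k + 1) * a2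
      nlinarith [mul_le_mul_of_nonneg_left ab a0]
    linarith

lemma mul_theta {l D j : ℝ} (l0 : 0 ≤ l) (D0 : 0 < D) (j0 : 0 ≤ j) :
    √l * (√j - √D) ≤ j * √(l / (j + D)) := by
  rw [Real.sqrt_div l0, mul_div_assoc', le_div_iff₀ (Real.sqrt_pos.2 (by linarith)), mul_assoc,
    mul_comm j]
  refine mul_le_mul_of_nonneg_left ?_ (Real.sqrt_nonneg _)
  have a0 := Real.sqrt_nonneg j
  have b0 := Real.sqrt_nonneg D
  have a2 := Real.mul_self_sqrt j0
  have b2 := Real.mul_self_sqrt D0.le
  have c0 := Real.sqrt_nonneg (j + D)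
  have c1 : √(j + D) ≤ √j + √D := Real.sqrt_le_iff.2 ⟨by positivity, by nlinarith⟩
  by_cases h : √j ≤ √D
  · nlinarith
  · nlinarith [mul_le_mul_of_nonneg_left c1 (by linarith : 0 ≤ √j - √D)]

lemma core {W : V → V → ℝ} (hs : ∀ a b, W a b = W b a) (h1 : ∀ a b, |W a b| = 1) {k N : ℕ}
    (hk : 2 ≤ k) (hN : 0 < N) (hV : k * N ≤ Fintype.card V) {e : ℝ} (he : 0 < e)
    (he1 : 48 * e ≤ 1) (hw : NoWin W k e) {l D s v : ℝ} (s0 : 0 ≤ s) (s1 : s ≤ 1) (l0 : 0 ≤ l)
    (D0 : 0 < D) (θ1 : 4 * √(l / D) ≤ v) (hv : v ≤ 1 / 2) :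
    2 * (1 - 48 * e) * √l * (2 / 3 * k * √(k : ℝ) - √(k : ℝ) - k * √D) ≤
      e * k * (k - 1) + 17 * (k : ℝ) ^ 5 / e *
        Real.exp (s * (l * ((1 + 8 * v + 12 * s) * (1 + 96 * e)) - Real.log N)) := by
  classical
  have k2 : (2 : ℝ) ≤ k := by exact_mod_cast hk
  have N0 : (0 : ℝ) < N := by exact_mod_cast hN
  have hp : 0 < prs k := by
    unfold prs
    nlinarith
  have v0 : 0 ≤ v := le_trans (by positivity) θ1
  obtain ⟨ι⟩ : Nonempty (Fin k × Fin N ↪ V) :=
    Function.Embedding.nonempty_of_card_le (by simpa using hV)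
  set T : ℕ → Finset V := fun j =>
    univ.image fun a : Fin N => ι (⟨j % k, Nat.mod_lt _ (by omega)⟩, a) with hT
  have T1 : ∀ j, (T j).card = N := fun j => by
    rw [hT, card_image_of_injective _ fun a b h => (Prod.ext_iff.1 (ι.injective h)).2]
    simp
  have T2 : ∀ j < k, ∀ i < j, ∀ a ∈ T i, ∀ b ∈ T j, a ≠ b := by
    intro j hj i hi a ha b hb hab
    obtain ⟨a', -, rfl⟩ := mem_image.1 ha
    obtain ⟨b', -, rfl⟩ := mem_image.1 hb
    have := congrArg Fin.val (Prod.ext_iff.1 (ι.injective hab)).1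
    simp only [Nat.mod_eq_of_lt hj, Nat.mod_eq_of_lt (hi.trans hj)] at this
    omega
  set Q : ℕ → V → ℝ := fun j z => if z ∈ T j then (N : ℝ)⁻¹ else 0 with hQ
  have Q1 : ∀ j, IsProb (Q j) := fun j => by
    refine ⟨fun z => by simp only [hQ]; positivity, ?_⟩
    simp only [hQ]
    rw [sum_ite_mem, univ_inter, sum_const, T1, nsmul_eq_mul, mul_inv_cancel₀ N0.ne']
  have Q2 : ∀ j z, Q j z ≠ 0 → z ∈ T j := fun j z h => by
    by_contra h'
    exact h (if_neg h')
  have Q3 : ∀ j, Psi s (Q j) = Real.exp (-(s * Real.log N)) := fun j => by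
    have : ∀ z, Q j z ^ (1 + s) = if z ∈ T j then (N : ℝ)⁻¹ ^ (1 + s) else 0 := fun z => by
      simp only [hQ]
      split_ifs
      · rfl
      · exact Real.zero_rpow (by linarith)
    unfold Psi
    simp only [this]
    rw [sum_ite_mem, univ_inter, sum_const, T1, nsmul_eq_mul, Real.rpow_add (by positivity),
      Real.rpow_one, ← mul_assoc, mul_inv_cancel₀ N0.ne', one_mul,
      Real.rpow_def_of_pos (by positivity), Real.log_inv]
    congr 1
    ring
  set θ : ℕ → ℝ := fun j => √(l / (j + D)) with hθ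
  set A : ℝ := (1 + 8 * v + 12 * s) * (1 + 96 * e) with hA
  have A0 : 0 ≤ A := by positivity
  have θ2 : ∀ j, 4 * θ j ≤ v := fun j => by
    refine le_trans (mul_le_mul_of_nonneg_left (Real.sqrt_le_sqrt ?_) (by norm_num)) θ1
    exact div_le_div_of_nonneg_left l0 D0 (by linarith [Nat.cast_nonneg (α := ℝ) j])
  obtain ⟨x, y, hxy, hm⟩ := rounds (W := W) (Ψ := Psi s) (fun μ h => Psi_nonneg s h)
    (ρ := e / (17 * prs k)) (by positivity) k k le_rfl (fun j => 2 * θ j * (1 - 48 * e))
    (fun j => 1 + s * θ j ^ 2 * (1 + 8 * v + 12 * s) * (1 + 96 * e))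
    (fun j => le_add_of_nonneg_right (by positivity))
    (fun j => step hs h1 hk he hw s0 s1 (Real.sqrt_nonneg _) (θ2 j) hv) Q Q1
    (fun _ => 0) (fun _ => 0)
  have w1 := (abs_le.1 (hw x fun j hj i hi =>
    T2 j hj i hi _ (Q2 _ _ (hxy i (hi.trans hj)).1) _ (Q2 _ _ (hxy j hj).1))).2
  have w2 := (abs_le.1 (hw y fun j hj i hi =>
    T2 j hj i hi _ (Q2 _ _ (hxy i (hi.trans hj)).2) _ (Q2 _ _ (hxy j hj).2))).1
  simp only [add_zero, mul_zero, sum_const_zero, zero_add, sum_sub_distrib] at hm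
  have g1 : 2 * (1 - 48 * e) * √l * (2 / 3 * k * √(k : ℝ) - √(k : ℝ) - k * √D) ≤
      ∑ j ∈ range k, (j : ℝ) * (2 * θ j * (1 - 48 * e)) := by
    have c0 : 0 ≤ 2 * (1 - 48 * e) := by linarith
    calc _ ≤ 2 * (1 - 48 * e) * √l * (∑ j ∈ range k, √(j : ℝ) - k * √D) :=
          mul_le_mul_of_nonneg_left (by linarith [sum_sqrt k]) (by positivity)
      _ = ∑ j ∈ range k, 2 * (1 - 48 * e) * (√l * (√(j : ℝ) - √D)) := by
          rw [← mul_sum, ← mul_sum, sum_sub_distrib, sum_const, card_range, nsmul_eq_mul]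
          ring
      _ ≤ _ := sum_le_sum fun j _ => by
          have := mul_le_mul_of_nonneg_left (mul_theta l0 D0 (Nat.cast_nonneg (α := ℝ) j)) c0
          simp only [hθ]
          linarith
  have g2 : ∑ j ∈ range k, (k : ℝ) / (e / (17 * prs k)) * (j + 1) *
      (1 + s * θ j ^ 2 * (1 + 8 * v + 12 * s) * (1 + 96 * e)) ^ j * Psi s (Q j) ≤
      17 * (k : ℝ) ^ 5 / e * Real.exp (s * (l * A - Real.log N)) := by
    calc _ ≤ ∑ j ∈ range k, 17 * (k : ℝ) ^ 4 / e * Real.exp (s * (l * A - Real.log N)) := by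
          refine sum_le_sum fun j hj => ?_
          have j1 : (j : ℝ) + 1 ≤ k := by exact_mod_cast mem_range.1 hj
          have j0 : (0 : ℝ) ≤ j := Nat.cast_nonneg j
          have t1 : (k : ℝ) / (e / (17 * prs k)) * (j + 1) ≤ 17 * (k : ℝ) ^ 4 / e := by
            rw [div_div_eq_mul_div, div_mul_eq_mul_div]
            refine div_le_div_of_nonneg_right ?_ he.le
            have : prs k ≤ (k : ℝ) ^ 2 := by
              unfold prs
              nlinarith
            calc (k : ℝ) * (17 * prs k) * (j + 1) ≤ k * (17 * k ^ 2) * k := by gcongr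
              _ = _ := by ring
          have t2 : (1 + s * θ j ^ 2 * (1 + 8 * v + 12 * s) * (1 + 96 * e)) ^ j ≤
              Real.exp (s * (l * A)) := by
            have t3 : θ j ^ 2 * j ≤ l := by
              simp only [hθ]
              rw [Real.sq_sqrt (by positivity), div_mul_eq_mul_div, div_le_iff₀ (by positivity)]
              nlinarith
            calc _ ≤ Real.exp (s * θ j ^ 2 * A) ^ j := by
                  refine pow_le_pow_left₀ (by positivity) ?_ j
                  have := Real.add_one_le_exp (s * θ j ^ 2 * A)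
                  rw [hA] at this ⊢
                  linarith
              _ = Real.exp (s * (θ j ^ 2 * j * A)) := by
                  rw [← Real.exp_nat_mul]
                  congr 1
                  ring
              _ ≤ _ := by gcongr
          rw [Q3, mul_sub, sub_eq_add_neg, Real.exp_add, ← mul_assoc]
          gcongr
      _ = _ := by
          rw [sum_const, card_range, nsmul_eq_mul]
          ring
  have g3 : 2 * (e * prs k) = e * k * (k - 1) := by
    unfold prs
    ring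
  linarith

end Pool.Agent.MP_dd175f_co.Pair
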