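import Pool.Agent.MP_dd175f_co.Pair.Core
import Pool.Prelude.Def_F_17a98086

/-! The constant `4 / 9`. -/

set_option autoImplicit false

namespace Pool.Agent.MP_dd175f_co.Pair

open Finset Filter Topology Nb34004ea

lemma count_le {n : ℕ} (c : Sym2 (Fin n) → Bool) (b : Bool) (x : ℕ → Fin n) (k : ℕ) :
    colourEdgeCount c ((range k).image x) b ≤
      ∑ j ∈ range k, ((range j).filter fun i => c s(x i, x j) = b).card := by
  unfold colourEdgeCount
  have h : ((range k).image x).sym2.filter (fun e => ¬ e.IsDiag ∧ c e = b) ⊆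
      (range k).biUnion fun j =>
        ((range j).filter fun i => c s(x i, x j) = b).image fun i => s(x i, x j) := by
    intro e he
    induction e using Sym2.ind with
    | h u w =>
      rw [mem_filter, mk_mem_sym2_iff] at he
      obtain ⟨⟨hu, hw⟩, h1, h2⟩ := he
      obtain ⟨i, hi, rfl⟩ := mem_image.1 hu
      obtain ⟨j, hj, rfl⟩ := mem_image.1 hw
      rcases lt_trichotomy i j with h | h | h
      · exact mem_biUnion.2 ⟨j, hj, mem_image.2 ⟨i, mem_filter.2 ⟨mem_range.2 h, h2⟩, rfl⟩⟩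
      · exact absurd (by rw [h]; simp) h1
      · exact mem_biUnion.2 ⟨i, hi, mem_image.2 ⟨j, mem_filter.2
          ⟨mem_range.2 h, by rw [Sym2.eq_swap]; exact h2⟩, Sym2.eq_swap⟩⟩
  exact (card_le_card h).trans (card_biUnion_le.trans (sum_le_sum fun j _ => card_image_le))

lemma noWin {n k : ℕ} {ε : ℝ} (h : F n (1 / 2 - ε) ≤ k) :
    ∃ W : Fin n → Fin n → ℝ, (∀ a b, W a b = W b a) ∧ (∀ a b, |W a b| = 1) ∧
      NoWin W k (2 * ε) := by
  have hne : {k : ℕ | ∃ c : Sym2 (Fin n) → Bool, IsBalancedAbove n (1 / 2 - ε) c k}.Nonempty :=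
    ⟨n + 1, fun _ => true, fun H hH => absurd (hH.trans (card_le_univ H)) (by simp)⟩
  obtain ⟨c, hc⟩ := Nat.sInf_mem hne
  refine ⟨fun a b => if c s(a, b) = true then 1 else -1, fun a b => by simp only [Sym2.eq_swap (a := a)],
    fun a b => by dsimp only; split_ifs <;> simp, fun x hx => ?_⟩
  have h1 : ((range k).image x).card = k := by
    rw [card_image_of_injOn, card_range]
    intro i hi j hj hij
    rcases lt_trichotomy i j with h | h | h
    · exact absurd hij (hx j (mem_range.1 hj) i h)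
    · exact h
    · exact absurd hij.symm (hx i (mem_range.1 hi) j h)
  have h2 : ∀ b : Bool, (1 / 2 - ε) * prs k ≤
      ∑ j ∈ range k, (((range j).filter fun i => c s(x i, x j) = b).card : ℝ) := fun b => by
    have := hc ((range k).image x) (by rw [h1]; exact h) b
    rw [h1, Nat.cast_choose_two] at this
    refine this.le.trans ?_
    exact_mod_cast count_le c b x k
  have hj : ∀ j : ℕ, (j : ℝ) = ∑ i ∈ range j, (1 : ℝ) := fun j => by simp
  have h3 : ∀ j, ∑ i ∈ range j, (if c s(x i, x j) = true then (1 : ℝ) else -1) =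
      2 * (((range j).filter fun i => c s(x i, x j) = true).card : ℝ) - j := fun j => by
    rw [card_filter]
    push_cast
    rw [mul_sum, hj j, ← sum_sub_distrib]
    exact sum_congr rfl fun i _ => by split_ifs <;> norm_num
  have h4 : ∀ j, ∑ i ∈ range j, (if c s(x i, x j) = true then (1 : ℝ) else -1) =
      j - 2 * (((range j).filter fun i => c s(x i, x j) = false).card : ℝ) := fun j => by
    rw [card_filter]
    push_cast
    rw [mul_sum, hj j, ← sum_sub_distrib]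
    exact sum_congr rfl fun i _ => by cases c s(x i, x j) <;> norm_num
  rw [abs_le]
  constructor
  · simp only [h3]
    rw [sum_sub_distrib, ← mul_sum, prs_eq]
    linarith [h2 true]
  · simp only [h4]
    rw [sum_sub_distrib, ← mul_sum, prs_eq]
    linarith [h2 false]

lemma lt_F {n k : ℕ} {ε ω : ℝ} (ω0 : 0 < ω) (ω1 : ω ≤ 1 / 100) (ε0 : 0 < ε)
    (ε1 : ε ≤ ω ^ 2 / 1280) (hk : 10 / ω ≤ k) (hn : k ≤ n)
    (hL : 9 / 4 * (1 + ω) ^ 4 * (ε ^ 2 * k) ≤ (1 - ω / 2) * Real.log n + 3)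
    (herr : 17 * Real.exp 3 * (k : ℝ) ^ 6 / ε * Real.exp (-(ω ^ 2 / 48 * Real.log n)) ≤ ε) :
    k < F n (1 / 2 - ε) := by
  by_contra hF
  obtain ⟨W, hs, h1, hw⟩ := noWin (not_lt.1 hF)
  rw [div_le_iff₀ ω0] at hk
  have k0 : (0 : ℝ) ≤ k := Nat.cast_nonneg k
  have k2 : (2 : ℝ) ≤ k := by nlinarith
  have k2' : 2 ≤ k := by exact_mod_cast k2
  have N0 : 0 < n / k := Nat.div_pos hn (by omega)
  have ε2 : 192 * ε ≤ ω := by nlinarith
  set r : ℝ := 3 / 2 * (1 + ω) with hr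
  have r0 : 0 < r := by positivity
  have sk := Real.sqrt_nonneg (k : ℝ)
  have sk2 := Real.mul_self_sqrt k0
  have e1 : √((r * ε) ^ 2 * k) = r * ε * √(k : ℝ) := by
    rw [Real.sqrt_mul (sq_nonneg _), Real.sqrt_sq (by positivity)]
  have e2 : √((ω / 10) ^ 2 * k) = ω / 10 * √(k : ℝ) := by
    rw [Real.sqrt_mul (sq_nonneg _), Real.sqrt_sq (by positivity)]
  have e3 : √((r * ε) ^ 2 * k / ((ω / 10) ^ 2 * k)) = r * ε / (ω / 10) := by
    rw [mul_div_mul_right _ _ (by linarith), ← div_pow, Real.sqrt_sq (by positivity)]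
  have hc := core hs h1 k2' N0 (by rw [Fintype.card_fin]; exact Nat.mul_div_le n k)
    (e := 2 * ε) (by positivity) (by linarith) hw (l := (r * ε) ^ 2 * k) (D := (ω / 10) ^ 2 * k)
    (s := ω / 24) (v := ω / 16) (by positivity) (by linarith) (by positivity) (by positivity)
    (by
      rw [e3, mul_div_assoc', div_le_iff₀ (by positivity)]
      have : r * ε ≤ 2 * ε := mul_le_mul_of_nonneg_right (by linarith) ε0.le
      nlinarith) (by linarith)
  rw [e1, e2] at hc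
  have g1 : 2 * ε * (k : ℝ) ^ 2 ≤ 2 * (1 - 48 * (2 * ε)) * (r * ε * √(k : ℝ)) *
      (2 / 3 * k * √(k : ℝ) - √(k : ℝ) - k * (ω / 10 * √(k : ℝ))) := by
    have t1 : 2 * (1 - 48 * (2 * ε)) * (r * ε * √(k : ℝ)) *
        (2 / 3 * k * √(k : ℝ) - √(k : ℝ) - k * (ω / 10 * √(k : ℝ))) =
        2 * ε * k * ((1 - 96 * ε) * r * (2 / 3 * k - 1 - ω / 10 * k)) := by
      linear_combination 2 * (1 - 96 * ε) * r * ε * (2 / 3 * k - 1 - ω / 10 * k) * sk2
    have t2 : (2 / 3 - ω / 5) * k ≤ 2 / 3 * k - 1 - ω / 10 * k := by linarith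
    have t3 : 1 ≤ (1 - ω / 2) * r * (2 / 3 - ω / 5) := by
      rw [hr]
      nlinarith [mul_pos ω0 ω0, mul_pos ω0 (mul_pos ω0 ω0)]
    have t4 : (1 - ω / 2) * r * ((2 / 3 - ω / 5) * k) ≤
        (1 - 96 * ε) * r * (2 / 3 * k - 1 - ω / 10 * k) :=
      mul_le_mul (mul_le_mul_of_nonneg_right (by linarith) r0.le) t2
        (mul_nonneg (by linarith) k0) (mul_nonneg (by linarith) r0.le)
    have t5 : (k : ℝ) ≤ (1 - 96 * ε) * r * (2 / 3 * k - 1 - ω / 10 * k) := by
      nlinarith [mul_le_mul_of_nonneg_right t3 k0]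
    rw [t1, sq, ← mul_assoc]
    exact mul_le_mul_of_nonneg_left t5 (by positivity)
  have n0 : (0 : ℝ) < n := by exact_mod_cast (by omega : 0 < n)
  have g2 : Real.log n ≤ Real.log (2 * k) + Real.log (n / k : ℕ) := by
    have N1 : (0 : ℝ) < (n / k : ℕ) := by exact_mod_cast N0
    rw [← Real.log_mul (by positivity) N1.ne']
    refine Real.log_le_log n0 ?_
    have t1 := Nat.lt_mul_div_succ n (by omega : 0 < k)
    have t2 : n ≤ 2 * k * (n / k) := by nlinarith
    exact_mod_cast t2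
  have g3 : (r * ε) ^ 2 * k * ((1 + 8 * (ω / 16) + 12 * (ω / 24)) * (1 + 96 * (2 * ε))) ≤
      (1 - ω / 2) * Real.log n + 3 := by
    refine le_trans ?_ hL
    calc _ ≤ (r * ε) ^ 2 * k * ((1 + ω) * (1 + ω)) :=
          mul_le_mul_of_nonneg_left (mul_le_mul (by linarith) (by linarith) (by positivity)
            (by positivity)) (by positivity)
      _ = _ := by rw [hr]; ring
  have g4 : Real.exp (ω / 24 * ((r * ε) ^ 2 * k * ((1 + 8 * (ω / 16) + 12 * (ω / 24)) *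
      (1 + 96 * (2 * ε))) - Real.log (n / k : ℕ))) ≤
      Real.exp 3 * (2 * k) * Real.exp (-(ω ^ 2 / 48 * Real.log n)) := by
    have l0 : 0 ≤ Real.log (2 * k) := Real.log_nonneg (by linarith)
    rw [← Real.exp_log (by linarith : (0 : ℝ) < 2 * k), ← Real.exp_add, ← Real.exp_add]
    refine Real.exp_le_exp.2 ?_
    have t1 := mul_le_mul_of_nonneg_left (add_le_add g3 g2) (by positivity : 0 ≤ ω / 24)
    have t2 := mul_le_mul_of_nonneg_right (by linarith : ω / 24 ≤ 1) l0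
    linarith
  have g5 : 17 * (k : ℝ) ^ 5 / (2 * ε) * (Real.exp 3 * (2 * k) *
      Real.exp (-(ω ^ 2 / 48 * Real.log n))) ≤ ε := by
    refine le_trans (le_of_eq ?_) herr
    field_simp
  have g6 := mul_le_mul_of_nonneg_left g4 (by positivity : 0 ≤ 17 * (k : ℝ) ^ 5 / (2 * ε))
  have g7 := g1.trans (hc.trans (add_le_add le_rfl (g6.trans g5)))
  have g8 : ε * 2 ≤ ε * k := mul_le_mul_of_nonneg_left k2 ε0.le
  clear hc g1 g2 g3 g4 g5 g6 herr hL e1 e2 e3
  nlinarith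

lemma four_ninths {c : ℝ} (hc : c < 4 / 9) : ∃ ε₀ : ℝ, 0 < ε₀ ∧ ∀ ε : ℝ, 0 < ε → ε < ε₀ →
    ∀ᶠ n : ℕ in atTop, c / ε ^ 2 * Real.log n ≤ F n (1 / 2 - ε) := by
  by_cases c0 : c ≤ 0
  · refine ⟨1, one_pos, fun ε _ _ => Eventually.of_forall fun n => le_trans ?_ (Nat.cast_nonneg _)⟩
    exact mul_nonpos_of_nonpos_of_nonneg (div_nonpos_of_nonpos_of_nonneg c0 (sq_nonneg _))
      (Real.log_natCast_nonneg n)
  replace c0 := not_le.1 c0
  obtain ⟨ω, ω0, ω1, ω2⟩ : ∃ ω : ℝ, 0 < ω ∧ ω ≤ 1 / 100 ∧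
      9 / 4 * (1 + ω) ^ 4 * c ≤ 1 - ω / 2 := by
    refine ⟨(1 - 9 / 4 * c) / 100, by linarith, by linarith, ?_⟩
    set ω := (1 - 9 / 4 * c) / 100 with hω
    have a0 : 0 < ω := by linarith
    have a1 : ω ≤ 1 / 100 := by linarith
    have a2 : (1 + ω) ^ 2 ≤ 1 + 3 * ω := by nlinarith
    have a3 : (1 + ω) ^ 4 ≤ 1 + 7 * ω := by
      calc (1 + ω) ^ 4 = ((1 + ω) ^ 2) ^ 2 := by ring
        _ ≤ (1 + 3 * ω) ^ 2 := by gcongr
        _ ≤ _ := by nlinarith
    have a4 : 9 / 4 * c = 1 - 100 * ω := by linarith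
    nlinarith [mul_le_mul_of_nonneg_right a3 c0.le]
  refine ⟨ω ^ 2 / 1280, by positivity, fun ε ε0 ε1 => ?_⟩
  have tl : Tendsto (fun n : ℕ => Real.log n) atTop atTop :=
    Real.tendsto_log_atTop.comp tendsto_natCast_atTop_atTop
  set C : ℝ := c / ε ^ 2 with hC
  have C0 : 0 < C := by positivity
  have t1 : Tendsto (fun L : ℝ => 17 * Real.exp 3 * (C + 1) ^ 6 / ε *
      (L ^ (6 : ℝ) * Real.exp (-(ω ^ 2 / 48) * L))) atTop
      (𝓝 (17 * Real.exp 3 * (C + 1) ^ 6 / ε * 0)) :=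
    (tendsto_rpow_mul_exp_neg_mul_atTop_nhds_zero 6 (ω ^ 2 / 48) (by positivity)).const_mul _
  rw [mul_zero] at t1
  filter_upwards [tl.eventually (t1.eventually_le_const ε0), tl.eventually_ge_atTop 1,
    tl.eventually_ge_atTop (2 * (C + 1)), tl.eventually_ge_atTop (10 / ω / C),
    eventually_gt_atTop 0] with n h1 h2 h3 h4 h5
  have n0 : (0 : ℝ) < n := by exact_mod_cast h5
  set L := Real.log n with hL
  have k1 := Nat.le_ceil (C * L)
  have k2 := (Nat.ceil_lt_add_one (by positivity : 0 ≤ C * L)).le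
  set k := ⌈C * L⌉₊
  have k3 : (k : ℝ) ≤ (C + 1) * L := by linarith
  have := lt_F (n := n) (k := k) ω0 ω1 ε0 ε1.le ?_ ?_ ?_ ?_
  · exact k1.trans (by exact_mod_cast this.le)
  · rw [div_le_iff₀ C0] at h4
    linarith
  · have q := Real.quadratic_le_exp_of_nonneg (by linarith : 0 ≤ L)
    rw [hL, Real.exp_log n0, ← hL] at q
    have : (k : ℝ) ≤ n := by nlinarith
    exact_mod_cast this
  · have q1 : ε ^ 2 * k ≤ c * L + ε ^ 2 := by
      have : ε ^ 2 * (C * L + 1) = c * L + ε ^ 2 := by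
        rw [hC]
        field_simp
      rw [← this]
      gcongr
    have q2 : ε ≤ 1 := by nlinarith
    have q3 : (1 + ω) ^ 4 ≤ (1 + 1 / 100) ^ 4 := by gcongr
    have q4 : 9 / 4 * (1 + ω) ^ 4 * ε ^ 2 ≤ 3 := by
      have : ε ^ 2 ≤ 1 := by nlinarith
      nlinarith [pow_pos (by linarith : 0 < 1 + ω) 4]
    have q5 := mul_le_mul_of_nonneg_left q1 (by positivity : 0 ≤ 9 / 4 * (1 + ω) ^ 4)
    nlinarith [mul_le_mul_of_nonneg_right ω2 (by linarith : 0 ≤ L)]
  · refine le_trans ?_ h1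
    have : L ^ (6 : ℝ) = L ^ 6 := by exact_mod_cast Real.rpow_natCast L 6
    rw [this, neg_mul]
    calc 17 * Real.exp 3 * (k : ℝ) ^ 6 / ε * Real.exp (-(ω ^ 2 / 48 * L))
        ≤ 17 * Real.exp 3 * ((C + 1) * L) ^ 6 / ε * Real.exp (-(ω ^ 2 / 48 * L)) := by gcongr
      _ = _ := by ring

end Pool.Agent.MP_dd175f_co.Pair
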