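import Pool.Agent.MP_dd175f_co.Pair.Step

/-! The pair scheme: all rounds together. -/

set_option autoImplicit false

namespace Pool.Agent.MP_dd175f_co.Pair

open Finset

variable {V : Type} [Fintype V]

lemma rounds {W : V → V → ℝ} {Ψ : (V → ℝ) → ℝ} (hΨ : ∀ μ, IsProb μ → 0 ≤ Ψ μ) {ρ : ℝ}
    (hρ : 0 < ρ) (K m : ℕ) (hm : m ≤ K) (γ G : ℕ → ℝ) (hG : ∀ j, 1 ≤ G j)
    (hst : ∀ j, Step W Ψ ρ (γ j) (G j)) (Q : ℕ → V → ℝ) (hQ : ∀ j, IsProb (Q j))
    (g h : V → ℝ) :
    ∃ x y : ℕ → V, (∀ j < m, Q j (x j) ≠ 0 ∧ Q j (y j) ≠ 0) ∧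
      ∑ j ∈ range m, (∑ z, Q j z * (g z + h z) + j * γ j -
          K / ρ * (j + 1) * G j ^ j * Ψ (Q j)) ≤
        ∑ j ∈ range m, (g (x j) + h (y j) +
          ∑ i ∈ range j, (W (x i) (x j) - W (y i) (y j))) := by
  induction m generalizing γ G Q g h with
  | zero =>
    obtain ⟨v, -, -⟩ := exists_ge_avg (hQ 0) g
    exact ⟨fun _ => v, fun _ => v, by simp, by simp⟩
  | succ m ih =>
    have hP := hQ 0
    set P := Q 0 with hPd
    choose R r1 r2 r3 r4 r5 using fun j => hst (j + 1) P (Q (j + 1)) hP (hQ (j + 1))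
    set t : ℕ → V → V → ℝ := fun j a b =>
      ∑ z, R j a b z * ((g z + W a z) + (h z - W b z)) + j * γ (j + 1) -
        K / ρ * (j + 1) * G (j + 1) ^ j * Ψ (R j a b) with ht
    set val : V → V → ℝ := fun a b => g a + h b + ∑ j ∈ range m, t j a b with hval
    obtain ⟨a, ha, ha'⟩ := exists_ge_avg hP fun a => ∑ b, P b * val a b
    obtain ⟨b, hb, hb'⟩ := exists_ge_avg hP fun b => val a b
    obtain ⟨x, y, hs, hxy⟩ := ih (by omega) (fun j => γ (j + 1)) (fun j => G (j + 1))
      (fun j => hG _) (fun j => hst _) (fun j => R j a b) (fun j => r1 j a b)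
      (fun z => g z + W a z) (fun z => h z - W b z)
    refine ⟨fun j => Nat.casesOn j a x, fun j => Nat.casesOn j b y, fun j hj => ?_, ?_⟩
    · cases j with
      | zero => exact ⟨ha, hb⟩
      | succ j => exact ⟨r2 j a b _ (hs j (by omega)).1, r2 j a b _ (hs j (by omega)).2⟩
    have e1 : val a b ≤ ∑ j ∈ range (m + 1),
        (g (Nat.casesOn j a x) + h (Nat.casesOn j b y) +
          ∑ i ∈ range j, (W (Nat.casesOn i a x) (Nat.casesOn j a x) -
            W (Nat.casesOn i b y) (Nat.casesOn j b y))) := by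
      rw [sum_range_succ']
      simp only [sum_range_succ', range_zero, sum_empty, add_zero, Nat.rec_zero]
      have e2 : ∑ j ∈ range m, (g (x j) + W a (x j) + (h (y j) - W b (y j)) +
          ∑ i ∈ range j, (W (x i) (x j) - W (y i) (y j))) =
          ∑ j ∈ range m, (g (x j) + h (y j) + (∑ i ∈ range j, (W (x i) (x j) - W (y i) (y j)) +
            (W a (x j) - W b (y j)))) := sum_congr rfl fun j _ => by ring
      rw [e2] at hxy
      simp only [hval, ht]
      linarith
    refine le_trans ?_ ((ha'.trans hb').trans e1)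
    have p0 := hΨ P hP
    have e3 : ∀ j ∈ range m, ∑ z, Q (j + 1) z * (g z + h z) + ((j + 1 : ℕ) : ℝ) * γ (j + 1) -
        K / ρ * (((j + 1 : ℕ) : ℝ) + 1) * G (j + 1) ^ (j + 1) * Ψ (Q (j + 1)) - Ψ P / ρ ≤
        ∑ a, ∑ b, P a * P b * t j a b := fun j hj => by
      have hj' : j < m := mem_range.1 hj
      have e4 : ∀ a b, P a * P b * t j a b =
          ∑ z, P a * P b * R j a b z * (g z + h z) +
            P a * P b * ∑ z, R j a b z * (W a z - W b z) + P a * P b * (j * γ (j + 1)) -
            K / ρ * (j + 1) * G (j + 1) ^ j * (P a * P b * Ψ (R j a b)) := fun a b => by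
        have : ∑ z, R j a b z * ((g z + W a z) + (h z - W b z)) =
            ∑ z, R j a b z * (g z + h z) + ∑ z, R j a b z * (W a z - W b z) := by
          rw [← sum_add_distrib]
          exact sum_congr rfl fun z _ => by ring
        have e5 : ∑ z, P a * P b * R j a b z * (g z + h z) =
            P a * P b * ∑ z, R j a b z * (g z + h z) := by
          rw [mul_sum]
          exact sum_congr rfl fun z _ => by ring
        simp only [ht]
        rw [this, e5]
        ring
      have e6 : ∑ a, ∑ b, ∑ z, P a * P b * R j a b z * (g z + h z) =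
          ∑ z, Q (j + 1) z * (g z + h z) := by
        rw [sum_congr rfl fun a _ => sum_comm, sum_comm]
        refine sum_congr rfl fun z _ => ?_
        rw [← r3 j z, sum_mul]
        exact sum_congr rfl fun a _ => by rw [sum_mul]
      simp only [e4, sum_add_distrib, sum_sub_distrib]
      rw [e6, sum_one hP]
      have e7 : ∑ a, ∑ b, K / ρ * (j + 1) * G (j + 1) ^ j * (P a * P b * Ψ (R j a b)) =
          K / ρ * (j + 1) * G (j + 1) ^ j * ∑ a, ∑ b, P a * P b * Ψ (R j a b) := by
        simp only [mul_sum]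
      rw [e7]
      have g0 : 0 ≤ G (j + 1) := zero_le_one.trans (hG _)
      have c0 : 0 ≤ K / ρ * (j + 1) * G (j + 1) ^ j := by positivity
      have e8 := mul_le_mul_of_nonneg_left (r5 j) c0
      have e9 := r4 j
      have q0 := hΨ _ (hQ (j + 1))
      have k1 : (1 : ℝ) ≤ K := by exact_mod_cast (by omega : 1 ≤ K)
      have g1 : 1 ≤ G (j + 1) ^ (j + 1) := one_le_pow₀ (hG _)
      have e10 : Ψ (Q (j + 1)) / ρ ≤ K / ρ * G (j + 1) ^ (j + 1) * Ψ (Q (j + 1)) := by
        rw [div_mul_eq_mul_div, div_mul_eq_mul_div]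
        refine div_le_div_of_nonneg_right ?_ hρ.le
        exact le_mul_of_one_le_left q0 (one_le_mul_of_one_le_of_one_le k1 g1)
      rw [add_div] at e9
      push_cast
      rw [pow_succ] at e10 ⊢
      nlinarith
    have e11 := sum_le_sum e3
    have e12 : ∑ a, P a * ∑ b, P b * val a b =
        ∑ z, P z * (g z + h z) + ∑ j ∈ range m, ∑ a, ∑ b, P a * P b * t j a b := by
      have e13 : ∀ a, P a * ∑ b, P b * val a b = P a * g a + P a * ∑ b, P b * h b +
          ∑ b, ∑ j ∈ range m, P a * P b * t j a b := fun a => by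
        simp only [hval, mul_add, sum_add_distrib, ← sum_mul, hP.2, one_mul]
        simp only [mul_sum, mul_assoc]
      simp only [e13, sum_add_distrib, ← sum_mul, hP.2, one_mul, mul_add]
      rw [sum_congr rfl fun a _ => sum_comm, sum_comm]
    rw [e12, sum_range_succ']
    rw [sum_sub_distrib, sum_const, card_range, nsmul_eq_mul] at e11
    have e14 : m * (Ψ P / ρ) ≤ K / ρ * Ψ P := by
      have : (m : ℝ) ≤ K := by exact_mod_cast (by omega : m ≤ K)
      rw [div_mul_eq_mul_div, ← mul_div_assoc]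
      exact div_le_div_of_nonneg_right (mul_le_mul_of_nonneg_right this p0) hρ.le
    simp only [Nat.cast_zero, zero_mul, add_zero, zero_add, pow_zero, mul_one]
    linarith

end Pool.Agent.MP_dd175f_co.Pair
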