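import Mathlib

/-! Pools of small collision probability have small bias when no `k`-set is biased. -/

set_option autoImplicit false

namespace Pool.Agent.MP_dd175f_co.Pair

open Finset

variable {V : Type} [Fintype V]

/-- Probability weights on a finite type. -/
def IsProb (μ : V → ℝ) : Prop := (∀ v, 0 ≤ μ v) ∧ ∑ v, μ v = 1

/-- The bias between two pools. -/
def bil (W : V → V → ℝ) (μ ν : V → ℝ) : ℝ := ∑ a, ∑ b, μ a * ν b * W a b

/-- The number of pairs, as a real number. -/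
noncomputable def prs (k : ℕ) : ℝ := (k : ℝ) * (k - 1) / 2

/-- No sequence of `k` distinct points has average bias above `e` in absolute value. -/
def NoWin (W : V → V → ℝ) (k : ℕ) (e : ℝ) : Prop :=
  ∀ x : ℕ → V, (∀ j < k, ∀ i < j, x i ≠ x j) →
    |∑ j ∈ range k, ∑ i ∈ range j, W (x i) (x j)| ≤ e * prs k

lemma prs_succ (k : ℕ) : prs (k + 1) = prs k + k := by
  unfold prs; push_cast; ring

lemma prs_eq (k : ℕ) : ∑ j ∈ range k, (j : ℝ) = prs k := by
  induction k with
  | zero => simp [prs]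
  | succ k ih => rw [sum_range_succ, ih, prs_succ]

lemma prs_nonneg (k : ℕ) : 0 ≤ prs k := by
  rw [← prs_eq]; positivity

lemma IsProb.le_one {μ : V → ℝ} (h : IsProb μ) (v : V) : μ v ≤ 1 := by
  rw [← h.2]
  exact single_le_sum (fun a _ => h.1 a) (mem_univ v)

lemma exists_ge_avg {μ : V → ℝ} (h : IsProb μ) (f : V → ℝ) :
    ∃ v, μ v ≠ 0 ∧ ∑ a, μ a * f a ≤ f v := by
  by_contra hc
  push Not at hc
  obtain ⟨v, -, hv⟩ : ∃ v ∈ (univ : Finset V), μ v ≠ 0 :=
    exists_ne_zero_of_sum_ne_zero (by rw [h.2]; exact one_ne_zero)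
  have : ∑ a, μ a * f a < ∑ a, μ a * ∑ b, μ b * f b := by
    refine sum_lt_sum (fun a _ => ?_) ⟨v, mem_univ v, ?_⟩
    · by_cases ha : μ a = 0
      · simp [ha]
      · exact mul_le_mul_of_nonneg_left (hc a ha).le (h.1 a)
    · exact mul_lt_mul_of_pos_left (hc v hv) (lt_of_le_of_ne (h.1 v) (Ne.symm hv))
  rw [← sum_mul, h.2, one_mul] at this
  exact lt_irrefl _ this

lemma sample (U : V → V → ℝ) {μ : V → ℝ} (h : IsProb μ) (k : ℕ) (g : V → ℝ) :
    ∃ x : ℕ → V, k * (∑ a, μ a * g a) + prs k * bil U μ μ ≤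
      ∑ j ∈ range k, (g (x j) + ∑ i ∈ range j, U (x i) (x j)) := by
  induction k generalizing g with
  | zero =>
    obtain ⟨v, -, -⟩ := exists_ge_avg h g
    exact ⟨fun _ => v, by simp [prs]⟩
  | succ k ih =>
    obtain ⟨a, -, ha⟩ := exists_ge_avg h (fun a => g a + k * ∑ b, μ b * U a b)
    obtain ⟨x, hx⟩ := ih (fun b => g b + U a b)
    refine ⟨fun j => Nat.casesOn j a x, ?_⟩
    rw [sum_range_succ']
    simp only [sum_range_succ', range_zero, sum_empty, add_zero, Nat.rec_zero]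
    have e1 : ∑ a, μ a * (g a + k * ∑ b, μ b * U a b) = ∑ a, μ a * g a + k * bil U μ μ := by
      unfold bil
      rw [mul_sum, ← sum_add_distrib]
      refine sum_congr rfl fun a _ => ?_
      rw [mul_add, mul_left_comm, mul_sum]
      simp only [mul_assoc]
    have e2 : ∑ b, μ b * (g b + U a b) = ∑ b, μ b * g b + ∑ b, μ b * U a b := by
      rw [← sum_add_distrib]
      exact sum_congr rfl fun b _ => mul_add _ _ _
    have e3 : ∑ j ∈ range k, (g (x j) + U a (x j) + ∑ i ∈ range j, U (x i) (x j)) =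
        ∑ j ∈ range k, (g (x j) + (∑ i ∈ range j, U (x i) (x j) + U a (x j))) :=
      sum_congr rfl fun j _ => by ring
    rw [e1] at ha
    rw [e2, e3] at hx
    rw [prs_succ]
    push_cast
    nlinarith

lemma spread_le {W : V → V → ℝ} (h1 : ∀ a b, |W a b| ≤ 1) {k : ℕ} (hk : 2 ≤ k) {e : ℝ}
    (he : 0 ≤ e)
    (hw : ∀ x : ℕ → V, (∀ j < k, ∀ i < j, x i ≠ x j) →
      ∑ j ∈ range k, ∑ i ∈ range j, W (x i) (x j) ≤ e * prs k)
    {μ : V → ℝ} (h : IsProb μ) : bil W μ μ ≤ e + prs k * ∑ a, μ a ^ 2 := by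
  classical
  have hp : 0 < prs k := by
    have : (2 : ℝ) ≤ k := by exact_mod_cast hk
    unfold prs
    nlinarith
  obtain ⟨x, hx⟩ := sample (fun a b => W a b - prs k * if a = b then 1 else 0) h k (fun _ => 0)
  have e1 : bil (fun a b => W a b - prs k * if a = b then 1 else 0) μ μ =
      bil W μ μ - prs k * ∑ a, μ a ^ 2 := by
    unfold bil
    rw [mul_sum, ← sum_sub_distrib]
    refine sum_congr rfl fun a _ => ?_
    simp only [mul_sub, sum_sub_distrib, mul_ite, mul_one, mul_zero, sum_ite_eq, mem_univ, if_true]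
    ring
  simp only [mul_zero, sum_const_zero, zero_add, sum_sub_distrib, ← mul_sum] at hx
  rw [e1] at hx
  have h2 : ∑ j ∈ range k, ∑ i ∈ range j, W (x i) (x j) -
      prs k * ∑ j ∈ range k, ∑ i ∈ range j, (if x i = x j then (1 : ℝ) else 0) ≤ e * prs k := by
    by_cases hi : ∀ j < k, ∀ i < j, x i ≠ x j
    · have := hw x hi
      have h3 : 0 ≤ ∑ j ∈ range k, ∑ i ∈ range j, (if x i = x j then (1 : ℝ) else 0) := by
        positivity
      nlinarith
    · push Not at hi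
      obtain ⟨j, hj, i, hi, hij⟩ := hi
      have h3 : (1 : ℝ) ≤ ∑ j ∈ range k, ∑ i ∈ range j, (if x i = x j then (1 : ℝ) else 0) := by
        refine le_trans ?_ (single_le_sum (f := fun j => ∑ i ∈ range j,
          (if x i = x j then (1 : ℝ) else 0)) (fun _ _ => by positivity) (mem_range.2 hj))
        refine le_trans ?_ (single_le_sum (f := fun i =>
          (if x i = x j then (1 : ℝ) else 0)) (fun _ _ => by positivity) (mem_range.2 hi))
        simp [hij]
      have h4 : ∑ j ∈ range k, ∑ i ∈ range j, W (x i) (x j) ≤ prs k := by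
        rw [← prs_eq]
        refine sum_le_sum fun j _ => ?_
        calc _ ≤ ∑ i ∈ range j, (1 : ℝ) := sum_le_sum fun i _ => (abs_le.1 (h1 _ _)).2
          _ = j := by simp
      nlinarith
  have h5 : prs k * (bil W μ μ - prs k * ∑ a, μ a ^ 2) ≤ prs k * e := by linarith
  have := le_of_mul_le_mul_left h5 hp
  linarith

lemma spread {W : V → V → ℝ} (h1 : ∀ a b, |W a b| ≤ 1) {k : ℕ} (hk : 2 ≤ k) {e : ℝ}
    (he : 0 ≤ e) (hw : NoWin W k e) {μ : V → ℝ} (h : IsProb μ) :
    |bil W μ μ| ≤ e + prs k * ∑ a, μ a ^ 2 := by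
  have a1 := spread_le h1 hk he (fun x hx => (abs_le.1 (hw x hx)).2) h
  have a2 := spread_le (W := fun a b => -W a b) (fun a b => by rw [abs_neg]; exact h1 a b) hk he
    (fun x hx => by
      have := (abs_le.1 (hw x hx)).1
      simp only [sum_neg_distrib]
      linarith) h
  have e1 : bil (fun a b => -W a b) μ μ = -bil W μ μ := by
    unfold bil
    simp only [mul_neg, sum_neg_distrib]
  rw [e1] at a2
  exact abs_le.2 ⟨by linarith, a1⟩

lemma bil_comm {W : V → V → ℝ} (hs : ∀ a b, W a b = W b a) (μ ν : V → ℝ) :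
    bil W μ ν = bil W ν μ := by
  unfold bil
  rw [sum_comm]
  exact sum_congr rfl fun a _ => sum_congr rfl fun b _ => by rw [hs b a]; ring

lemma cross {W : V → V → ℝ} (hs : ∀ a b, W a b = W b a) (h1 : ∀ a b, |W a b| ≤ 1) {k : ℕ}
    (hk : 2 ≤ k) {e : ℝ} (he : 0 ≤ e) (hw : NoWin W k e) {P Q : V → ℝ} (hP : IsProb P)
    (hQ : IsProb Q) :
    |bil W P Q| ≤ 3 * e + 3 / 2 * prs k * (∑ a, P a ^ 2 + ∑ a, Q a ^ 2) := by
  have hM : IsProb fun a => (P a + Q a) / 2 := by
    refine ⟨fun a => by have := hP.1 a; have := hQ.1 a; positivity, ?_⟩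
    rw [← sum_div, sum_add_distrib, hP.2, hQ.2]
    norm_num
  have a1 := abs_le.1 (spread h1 hk he hw hP)
  have a2 := abs_le.1 (spread h1 hk he hw hQ)
  have a3 := abs_le.1 (spread h1 hk he hw hM)
  have e1 : bil W (fun a => (P a + Q a) / 2) (fun a => (P a + Q a) / 2) =
      (bil W P P + bil W P Q + bil W Q P + bil W Q Q) / 4 := by
    unfold bil
    simp only [← sum_add_distrib, sum_div]
    exact sum_congr rfl fun a _ => sum_congr rfl fun b _ => by ring
  have e2 : ∑ a, ((P a + Q a) / 2) ^ 2 ≤ (∑ a, P a ^ 2 + ∑ a, Q a ^ 2) / 2 := by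
    rw [← sum_add_distrib, sum_div]
    exact sum_le_sum fun a _ => by nlinarith [sq_nonneg (P a - Q a)]
  rw [e1, bil_comm hs Q P] at a3
  have := mul_le_mul_of_nonneg_left e2 (prs_nonneg k)
  rw [abs_le]
  constructor <;> nlinarith

lemma cross_abs {W : V → V → ℝ} (hs : ∀ a b, W a b = W b a) (h1 : ∀ a b, |W a b| ≤ 1) {k : ℕ}
    (hk : 2 ≤ k) {e : ℝ} (he : 0 ≤ e) (hw : NoWin W k e) {P Q : V → ℝ} (hP : IsProb P)
    (hQ : IsProb Q) :
    ∑ a, P a * |∑ z, Q z * W a z| ≤ 15 * e + 17 * prs k * (∑ a, P a ^ 2 + ∑ a, Q a ^ 2) := by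
  classical
  set b : V → ℝ := fun a => ∑ z, Q z * W a z with hb
  set s : V → ℝ := fun a => if 0 ≤ b a then 1 else -1 with hsd
  have s1 : ∀ a, -1 ≤ s a ∧ s a ≤ 1 := fun a => by
    simp only [hsd]
    split_ifs <;> norm_num
  have s2 : ∀ a, s a * b a = |b a| := fun a => by
    simp only [hsd]
    split_ifs with h
    · rw [abs_of_nonneg h, one_mul]
    · rw [abs_of_neg (not_le.1 h)]; ring
  set m : ℝ := ∑ a, P a * s a with hm
  have m1 : m ≤ 1 := by
    rw [← hP.2]
    exact sum_le_sum fun a _ => by nlinarith [hP.1 a, (s1 a).2]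
  have m2 : -1 ≤ m := by
    have : ∑ a, -P a ≤ m := sum_le_sum fun a _ => by nlinarith [hP.1 a, (s1 a).1]
    rwa [sum_neg_distrib, hP.2] at this
  have hR : IsProb fun a => P a * (1 + (s a - m) / 2) := by
    refine ⟨fun a => mul_nonneg (hP.1 a) (by linarith [(s1 a).1]), ?_⟩
    have : ∀ a, P a * (1 + (s a - m) / 2) = P a * (1 - m / 2) + P a * s a / 2 := fun a => by ring
    simp only [this]
    rw [sum_add_distrib, ← sum_mul, ← sum_div, hP.2, ← hm]
    ring
  have a1 := abs_le.1 (cross hs h1 hk he hw hP hQ)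
  have a2 := abs_le.1 (cross hs h1 hk he hw hR hQ)
  have e0 : ∀ R : V → ℝ, bil W R Q = ∑ a, R a * b a := fun R => by
    unfold bil
    refine sum_congr rfl fun a _ => ?_
    simp only [hb, mul_sum, mul_assoc]
  have e1 : bil W (fun a => P a * (1 + (s a - m) / 2)) Q =
      bil W P Q * (1 - m / 2) + (∑ a, P a * |b a|) / 2 := by
    rw [e0, e0, sum_mul, sum_div (f := fun a => P a * |b a|), ← sum_add_distrib]
    refine sum_congr rfl fun a _ => ?_
    rw [← s2]; ring
  have e2 : ∑ a, (P a * (1 + (s a - m) / 2)) ^ 2 ≤ 4 * ∑ a, P a ^ 2 := by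
    rw [mul_sum]
    refine sum_le_sum fun a _ => ?_
    rw [mul_pow, mul_comm]
    refine mul_le_mul_of_nonneg_right ?_ (sq_nonneg _)
    nlinarith [(s1 a).1, (s1 a).2]
  rw [e1] at a2
  have p0 := prs_nonneg k
  have q1 : 0 ≤ ∑ a, P a ^ 2 := by positivity
  have q2 : 0 ≤ ∑ a, Q a ^ 2 := by positivity
  have t1 := mul_le_mul_of_nonneg_left e2 p0
  have t2 := mul_nonneg p0 q1
  have t3 := mul_nonneg p0 q2
  have t4 : -(3 / 2 * (3 * e + 3 / 2 * prs k * (∑ a, P a ^ 2 + ∑ a, Q a ^ 2))) ≤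
      bil W P Q * (1 - m / 2) := by
    have t5 : 0 ≤ 3 * e + 3 / 2 * prs k * (∑ a, P a ^ 2 + ∑ a, Q a ^ 2) := by positivity
    nlinarith [mul_le_mul_of_nonneg_right a1.1 (by linarith : (0 : ℝ) ≤ 1 - m / 2)]
  change ∑ a, P a * |b a| ≤ _
  nlinarith [a2.2]

end Pool.Agent.MP_dd175f_co.Pair
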