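import Pool.Agent.MP_dd175f_co.Pair.Spread

/-! One round of the pair scheme: tilt a pool by the difference of two rows. -/

set_option autoImplicit false

namespace Pool.Agent.MP_dd175f_co.Pair

open Finset

variable {V : Type} [Fintype V]

/-- The Renyi-type potential of a pool. -/
noncomputable def Psi (s : ℝ) (μ : V → ℝ) : ℝ := ∑ z, μ z ^ (1 + s)

/-- What one round gives for one later pool. -/
def Step (W : V → V → ℝ) (Ψ : (V → ℝ) → ℝ) (ρ γ G : ℝ) : Prop :=
  ∀ P Q : V → ℝ, IsProb P → IsProb Q → ∃ R : V → V → V → ℝ,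
    (∀ a b, IsProb (R a b)) ∧ (∀ a b z, R a b z ≠ 0 → Q z ≠ 0) ∧
    (∀ z, ∑ a, ∑ b, P a * P b * R a b z = Q z) ∧
    γ - (Ψ P + Ψ Q) / ρ ≤ ∑ a, ∑ b, P a * P b * ∑ z, R a b z * (W a z - W b z) ∧
    ∑ a, ∑ b, P a * P b * Ψ (R a b) ≤ G * Ψ Q

lemma rpow_le {s u v : ℝ} (s0 : 0 ≤ s) (s1 : s ≤ 1) (hu : |u| ≤ v) (hv : v ≤ 1 / 2) :
    (1 + u) ^ (1 + s) ≤ 1 + (1 + s) * u + s * (1 / 2 + 4 * v + 6 * s) * u ^ 2 := by
  have u1 := abs_le.1 (hu.trans hv)
  have u0 : 0 < 1 + u := by linarith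
  have a0 := abs_nonneg u
  have l1 := Real.abs_log_sub_add_sum_range_le (x := -u) (by rw [abs_neg]; linarith) 2
  simp only [sum_range_succ, range_zero, sum_empty, abs_neg, sub_neg_eq_add] at l1
  have l2 : |u| ^ (2 + 1) / (1 - |u|) ≤ 2 * v * u ^ 2 := by
    rw [div_le_iff₀ (by linarith), pow_succ, sq_abs]
    have : |u| ≤ 2 * v * (1 - |u|) := by nlinarith
    nlinarith [mul_le_mul_of_nonneg_left this (sq_nonneg u)]
  set l := Real.log (1 + u) with hl
  have l3 := abs_le.1 (l1.trans l2)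
  norm_num at l3
  have v0 : 0 ≤ v := a0.trans hu
  have q1 : u ^ 2 ≤ |u| / 2 := by
    rw [← sq_abs]
    nlinarith
  have q2 : v * u ^ 2 ≤ |u| / 4 := by nlinarith [sq_nonneg u]
  have l4 : |l| ≤ 2 * |u| := by
    rw [abs_le]
    constructor <;> nlinarith [le_abs_self u, neg_abs_le u, sq_nonneg u]
  have l5 : |s * l| ≤ 1 := by
    rw [abs_mul, abs_of_nonneg s0]
    nlinarith [abs_nonneg l]
  have l6 := (abs_le.1 (Real.abs_exp_sub_one_sub_id_le l5)).2
  have l7 : l ^ 2 ≤ 4 * u ^ 2 := by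
    rw [← sq_abs l, ← sq_abs u]
    nlinarith [abs_nonneg l]
  have l8 : Real.exp (s * l) ≤ 1 + s * (u - u ^ 2 / 2 + 2 * v * u ^ 2) + 4 * s ^ 2 * u ^ 2 := by
    have : l ≤ u - u ^ 2 / 2 + 2 * v * u ^ 2 := by linarith [l3.2]
    nlinarith [mul_le_mul_of_nonneg_left this s0, mul_le_mul_of_nonneg_left l7 (sq_nonneg s)]
  rw [Real.rpow_add u0, Real.rpow_one, Real.rpow_def_of_pos u0, ← hl, mul_comm l]
  refine (mul_le_mul_of_nonneg_left l8 u0.le).trans ?_
  have u2 := abs_le.1 hu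
  have w0 : 0 ≤ s * u ^ 2 := by positivity
  have w1 : 1 - (1 + u) / 2 + 2 * v * (1 + u) + 4 * s * (1 + u) ≤ 1 / 2 + 4 * v + 6 * s := by
    nlinarith
  nlinarith [mul_le_mul_of_nonneg_left w1 w0]

lemma Psi_nonneg (s : ℝ) {μ : V → ℝ} (h : IsProb μ) : 0 ≤ Psi s μ :=
  sum_nonneg fun z _ => Real.rpow_nonneg (h.1 z) _

lemma sq_le_Psi {s : ℝ} (s0 : 0 ≤ s) (s1 : s ≤ 1) {μ : V → ℝ} (h : IsProb μ) :
    ∑ a, μ a ^ 2 ≤ Psi s μ := by
  refine sum_le_sum fun a _ => ?_
  rw [← Real.rpow_two]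
  exact Real.rpow_le_rpow_of_exponent_ge' (h.1 a) (h.le_one a) (by linarith) (by linarith)

lemma sum_anti {P : V → ℝ} (hP : IsProb P) (f : V → ℝ) :
    ∑ a, ∑ b, P a * P b * (f a - f b) = 0 := by
  simp only [mul_sub, sum_sub_distrib]
  rw [sum_comm (f := fun a b => P a * P b * f b), sub_eq_zero]
  exact sum_congr rfl fun a _ => sum_congr rfl fun b _ => by ring

lemma sum_symm {P : V → ℝ} (hP : IsProb P) (f : V → ℝ) :
    ∑ a, ∑ b, P a * P b * (f a + f b) = 2 * ∑ a, P a * f a := by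
  have e : ∑ a, ∑ b, P a * P b * f a = ∑ a, P a * f a := by
    refine sum_congr rfl fun a _ => ?_
    rw [← sum_mul, ← mul_sum, hP.2, mul_one]
  have := sum_anti hP f
  simp only [mul_sub, mul_add, sum_sub_distrib, sum_add_distrib] at this ⊢
  linarith

lemma sum_one {P : V → ℝ} (hP : IsProb P) (c : ℝ) : ∑ a, ∑ b, P a * P b * c = c := by
  have := sum_symm hP fun _ => c / 2
  simp only [add_halves, ← sum_mul, hP.2] at this
  simp only [← sum_mul]
  linarith

lemma sum_prod (P : V → ℝ) (f : V → ℝ) :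
    ∑ a, ∑ b, P a * P b * (f a * f b) = (∑ a, P a * f a) ^ 2 := by
  rw [sq, sum_mul_sum]
  exact sum_congr rfl fun a _ => sum_congr rfl fun b _ => by ring

lemma abs_avg_le {W : V → V → ℝ} (h1 : ∀ a b, |W a b| ≤ 1) {Q : V → ℝ} (hQ : IsProb Q) (a : V) :
    |∑ z, Q z * W a z| ≤ 1 := by
  refine (abs_sum_le_sum_abs _ _).trans ?_
  rw [← hQ.2]
  refine sum_le_sum fun z _ => ?_
  rw [abs_mul, abs_of_nonneg (hQ.1 z)]
  exact mul_le_of_le_one_right (hQ.1 z) (h1 a z)

lemma tilt {W : V → V → ℝ} (hs : ∀ a b, W a b = W b a) (h1 : ∀ a b, |W a b| = 1)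
    {P Q : V → ℝ} (hP : IsProb P) (hQ : IsProb Q) {η θ s v : ℝ} (s0 : 0 ≤ s) (s1 : s ≤ 1)
    (θ0 : 0 ≤ θ) (θ1 : 4 * θ ≤ v) (hv : v ≤ 1 / 2)
    (b1 : ∑ a, P a * |∑ z, Q z * W a z| ≤ η) (b2 : ∑ z, Q z * |∑ a, P a * W z a| ≤ η) :
    ∃ R : V → V → V → ℝ,
      (∀ a b, IsProb (R a b)) ∧ (∀ a b z, R a b z ≠ 0 → Q z ≠ 0) ∧
      (∀ z, ∑ a, ∑ b, P a * P b * R a b z = Q z) ∧
      2 * θ * (1 - 3 * η) ≤ ∑ a, ∑ b, P a * P b * ∑ z, R a b z * (W a z - W b z) ∧
      ∑ a, ∑ b, P a * P b * Psi s (R a b) ≤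
        (1 + s * θ ^ 2 * (1 + 8 * v + 12 * s) * (1 + 6 * η)) * Psi s Q := by
  have h1' : ∀ a b, |W a b| ≤ 1 := fun a b => (h1 a b).le
  have h2 : ∀ a b, W a b ^ 2 = 1 := fun a b => by rw [← sq_abs, h1, one_pow]
  set β : V → ℝ := fun a => ∑ z, Q z * W a z with hβ
  have β1 : ∀ a, |β a| ≤ 1 := abs_avg_le h1' hQ
  set d : V → V → V → ℝ := fun a b z => (W a z - β a) - (W b z - β b) with hd
  have d1 : ∀ a b z, |θ * d a b z| ≤ v := fun a b z => by
    have := abs_le.1 (h1' a z)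
    have := abs_le.1 (h1' b z)
    have := abs_le.1 (β1 a)
    have := abs_le.1 (β1 b)
    have : |d a b z| ≤ 4 := by
      rw [abs_le]
      constructor <;> simp only [hd] <;> linarith
    rw [abs_mul, abs_of_nonneg θ0]
    nlinarith
  have d2 : ∀ z, ∑ a, ∑ b, P a * P b * d a b z = 0 := fun z =>
    sum_anti hP fun a => W a z - β a
  have d3 : ∀ a b, ∑ z, Q z * d a b z = 0 := fun a b => by
    simp only [hd, mul_sub, sum_sub_distrib, ← sum_mul, hQ.2, hβ]
    ring
  have PP : ∀ a b, 0 ≤ P a * P b := fun a b => mul_nonneg (hP.1 a) (hP.1 b)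
  refine ⟨fun a b z => Q z * (1 + θ * d a b z), fun a b => ⟨fun z => ?_, ?_⟩,
    fun a b z h => left_ne_zero_of_mul h, fun z => ?_, ?_, ?_⟩
  · exact mul_nonneg (hQ.1 z) (by linarith [(abs_le.1 (d1 a b z)).1])
  · have : ∀ z, Q z * (1 + θ * d a b z) = Q z + θ * (Q z * d a b z) := fun z => by ring
    simp only [this]
    rw [sum_add_distrib, ← mul_sum, d3, hQ.2]
    ring
  · have : ∀ a b, P a * P b * (Q z * (1 + θ * d a b z)) =
        P a * P b * Q z + Q z * θ * (P a * P b * d a b z) := fun a b => by ring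
    simp only [this, sum_add_distrib]
    rw [sum_one hP]
    simp only [← mul_sum]
    rw [d2]
    ring
  · have e1 : ∀ a b, (β a - β b) + θ * (2 - 2 * ∑ z, Q z * (W a z * W b z) -
        2 * (|β a| + |β b|)) ≤ ∑ z, Q z * (1 + θ * d a b z) * (W a z - W b z) := fun a b => by
      have e2 : ∀ z, Q z * (1 + θ * d a b z) * (W a z - W b z) =
          (1 - θ * (β a - β b)) * (Q z * W a z) - (1 - θ * (β a - β b)) * (Q z * W b z) +
            2 * θ * Q z - 2 * θ * (Q z * (W a z * W b z)) := fun z => by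
        simp only [hd]
        linear_combination Q z * θ * h2 a z + Q z * θ * h2 b z
      simp only [e2, sum_add_distrib, sum_sub_distrib, ← mul_sum, hQ.2]
      change _ ≤ (1 - θ * (β a - β b)) * β a - (1 - θ * (β a - β b)) * β b + _ - _
      have e3 : (β a - β b) ^ 2 ≤ 2 * (|β a| + |β b|) := by
        have t1 : |β a - β b| ≤ |β a| + |β b| := abs_sub _ _
        have t2 := β1 a
        have t3 := β1 b
        rw [← sq_abs]
        nlinarith [abs_nonneg (β a - β b)]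
      nlinarith [mul_le_mul_of_nonneg_left e3 θ0]
    refine le_trans ?_ (sum_le_sum fun a _ => sum_le_sum fun b _ =>
      mul_le_mul_of_nonneg_left (e1 a b) (PP a b))
    have e4 : ∀ a b, P a * P b * ((β a - β b) + θ * (2 - 2 * ∑ z, Q z * (W a z * W b z) -
        2 * (|β a| + |β b|))) = P a * P b * (β a - β b) + P a * P b * (2 * θ) -
          2 * θ * ∑ z, Q z * (P a * P b * (W a z * W b z)) -
          2 * θ * (P a * P b * (|β a| + |β b|)) := fun a b => by
      have : ∑ z, Q z * (P a * P b * (W a z * W b z)) =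
          P a * P b * ∑ z, Q z * (W a z * W b z) := by
        rw [mul_sum]
        exact sum_congr rfl fun z _ => by ring
      rw [this]; ring
    simp only [e4, sum_add_distrib, sum_sub_distrib]
    rw [sum_anti hP, sum_one hP]
    simp only [← mul_sum]
    rw [sum_symm hP fun a => |β a|]
    have e5 : ∑ a, ∑ b, ∑ z, Q z * (P a * P b * (W a z * W b z)) ≤ η := by
      refine le_trans ?_ b2
      have : ∑ a, ∑ b, ∑ z, Q z * (P a * P b * (W a z * W b z)) =
          ∑ z, Q z * (∑ a, P a * W z a) ^ 2 := by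
        simp only [← sum_prod, mul_sum]
        rw [sum_congr rfl fun a _ => sum_comm, sum_comm]
        refine sum_congr rfl fun z _ => sum_congr rfl fun a _ => sum_congr rfl fun b _ => ?_
        rw [hs a z, hs b z]
      rw [this]
      refine sum_le_sum fun z _ => mul_le_mul_of_nonneg_left ?_ (hQ.1 z)
      have t := abs_avg_le h1' hP z
      rw [← sq_abs]
      nlinarith [abs_nonneg (∑ a, P a * W z a)]
    change ∑ a, P a * |β a| ≤ η at b1
    nlinarith [mul_le_mul_of_nonneg_left e5 θ0, mul_le_mul_of_nonneg_left b1 θ0]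
  · set c : ℝ := s * (1 / 2 + 4 * v + 6 * s) with hc
    have v0 : 0 ≤ v := by linarith
    have c0 : 0 ≤ c := by positivity
    have e1 : ∀ a b, Psi s (fun z => Q z * (1 + θ * d a b z)) ≤ ∑ z, Q z ^ (1 + s) *
        (1 + (1 + s) * θ * d a b z + c * θ ^ 2 * (2 - 2 * (W a z * W b z) +
          6 * (|β a| + |β b|))) := fun a b => by
      refine sum_le_sum fun z _ => ?_
      rw [Real.mul_rpow (hQ.1 z) (by linarith [(abs_le.1 (d1 a b z)).1])]
      refine mul_le_mul_of_nonneg_left ((rpow_le s0 s1 (d1 a b z) hv).trans ?_)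
        (Real.rpow_nonneg (hQ.1 z) _)
      have e3 : d a b z ^ 2 ≤ 2 - 2 * (W a z * W b z) + 6 * (|β a| + |β b|) := by
        have t1 : |β a - β b| ≤ |β a| + |β b| := abs_sub _ _
        have t2 := β1 a
        have t3 := β1 b
        have t4 : |W a z - W b z| ≤ 2 := (abs_sub _ _).trans (by rw [h1, h1]; norm_num)
        have t5 : -((W a z - W b z) * (β a - β b)) ≤ 2 * |β a - β b| := by
          refine (neg_le_abs _).trans ?_
          rw [abs_mul]
          exact mul_le_mul_of_nonneg_right t4 (abs_nonneg _)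
        have t6 : (β a - β b) ^ 2 ≤ 2 * |β a - β b| := by
          rw [← sq_abs]
          nlinarith [abs_nonneg (β a - β b)]
        simp only [hd]
        nlinarith [h2 a z, h2 b z]
      have : 0 ≤ c * θ ^ 2 := by positivity
      nlinarith [mul_le_mul_of_nonneg_left e3 this]
    refine le_trans (sum_le_sum fun a _ => sum_le_sum fun b _ =>
      mul_le_mul_of_nonneg_left (e1 a b) (PP a b)) ?_
    simp only [mul_sum]
    rw [sum_congr rfl fun a _ => sum_comm, sum_comm]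
    unfold Psi
    rw [mul_sum]
    refine sum_le_sum fun z _ => ?_
    have e4 : ∀ a b, P a * P b * (Q z ^ (1 + s) *
        (1 + (1 + s) * θ * d a b z + c * θ ^ 2 * (2 - 2 * (W a z * W b z) +
          6 * (|β a| + |β b|)))) = Q z ^ (1 + s) * (P a * P b * (1 + 2 * c * θ ^ 2) +
          (1 + s) * θ * (P a * P b * d a b z) - 2 * c * θ ^ 2 * (P a * P b * (W a z * W b z)) +
          6 * c * θ ^ 2 * (P a * P b * (|β a| + |β b|))) := fun a b => by ring
    simp only [e4, ← mul_sum]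
    rw [mul_comm]
    refine mul_le_mul_of_nonneg_right ?_ (Real.rpow_nonneg (hQ.1 z) _)
    simp only [sum_add_distrib, sum_sub_distrib]
    rw [sum_one hP]
    simp only [← mul_sum]
    rw [d2, sum_symm hP fun a => |β a|, sum_prod P fun a => W a z]
    change ∑ a, P a * |β a| ≤ η at b1
    have : 0 ≤ c * θ ^ 2 := by positivity
    have t1 := mul_le_mul_of_nonneg_left b1 this
    have t2 := mul_nonneg this (sq_nonneg (∑ a, P a * W a z))
    have t3 : s * θ ^ 2 * (1 + 8 * v + 12 * s) = 2 * (c * θ ^ 2) := by rw [hc]; ring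
    rw [t3]
    nlinarith

lemma step {W : V → V → ℝ} (hs : ∀ a b, W a b = W b a) (h1 : ∀ a b, |W a b| = 1) {k : ℕ}
    (hk : 2 ≤ k) {e : ℝ} (he : 0 < e) (hw : NoWin W k e) {θ s v : ℝ} (s0 : 0 ≤ s) (s1 : s ≤ 1)
    (θ0 : 0 ≤ θ) (θ1 : 4 * θ ≤ v) (hv : v ≤ 1 / 2) :
    Step W (Psi s) (e / (17 * prs k)) (2 * θ * (1 - 48 * e))
      (1 + s * θ ^ 2 * (1 + 8 * v + 12 * s) * (1 + 96 * e)) := by
  intro P Q hP hQ
  have h1' : ∀ a b, |W a b| ≤ 1 := fun a b => (h1 a b).le
  have hp : 0 < prs k := by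
    have : (2 : ℝ) ≤ k := by exact_mod_cast hk
    unfold prs
    nlinarith
  have p1 := Psi_nonneg s hP
  have p2 := Psi_nonneg s hQ
  have hρ : 0 < e / (17 * prs k) := by positivity
  by_cases hg : Psi s P + Psi s Q ≤ e / (17 * prs k)
  · rw [le_div_iff₀ (by positivity)] at hg
    have q1 := sq_le_Psi s0 s1 hP
    have q2 := sq_le_Psi s0 s1 hQ
    have q3 : 17 * prs k * (∑ a, P a ^ 2 + ∑ a, Q a ^ 2) ≤ e := by nlinarith
    have c1 := cross_abs hs h1' hk he.le hw hP hQ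
    have c2 := cross_abs hs h1' hk he.le hw hQ hP
    obtain ⟨R, r1, r2, r3, r4, r5⟩ := tilt hs h1 hP hQ (η := 16 * e) s0 s1 θ0 θ1 hv
      (by linarith) (by rw [add_comm (∑ a, Q a ^ 2)] at c2; linarith)
    refine ⟨R, r1, r2, r3, le_trans ?_ r4, r5.trans (le_of_eq (by ring))⟩
    have : 0 ≤ (Psi s P + Psi s Q) / (e / (17 * prs k)) := by positivity
    linarith
  · refine ⟨fun _ _ => Q, fun _ _ => hQ, fun _ _ _ h => h, fun z => sum_one hP _, ?_, ?_⟩
    · simp only [mul_sub (Q _), sum_sub_distrib]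
      rw [sum_anti hP fun a => ∑ z, Q z * W a z]
      have : 1 ≤ (Psi s P + Psi s Q) / (e / (17 * prs k)) :=
        (one_le_div hρ).2 (not_le.1 hg).le
      nlinarith [mul_nonneg θ0 he.le]
    · rw [sum_one hP]
      have v0 : 0 ≤ v := by linarith
      have : 0 ≤ s * θ ^ 2 * (1 + 8 * v + 12 * s) * (1 + 96 * e) := by positivity
      nlinarith

end Pool.Agent.MP_dd175f_co.Pair
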